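import Mathlib
import Pool.Agent.TH127.PG.IndepTypes
import Pool.Agent.TH127.PG.Cond
import Pool.Agent.H977R3.CM.Defs

/-!
# Good classes and CM subfields for pairwise independent CM fields
-/

set_option autoImplicit false
set_option linter.unusedSectionVars false
set_option linter.unusedVariables false

namespace Pool.Agent.V5helper98.GP

open NumberField Module Pool.Agent.W547.KB Pool.Agent.W537.PC Pool.Agent.W527
  Pool.Agent.H204R3.CM Pool.Agent.W527.Struct Pool.Agent.W527.Per Pool.Agent.TH127.SC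
  Pool.Agent.TH127.PG Pool.Agent.H977R3.CM

noncomputable section

section family

variable {I : Type} {K : I → Type} [∀ i, Field (K i)]

/-- The fields `F` and `F'` are independent: for all complex embeddings `φ` of `F` and `ψ` of `F'`
some automorphism of the complex numbers is the identity on `φ (F)` and the complex conjugation on
`ψ (F')`. -/
def IndepPair (F F' : Type) [Field F] [Field F'] : Prop :=
  ∀ (φ : F →+* ℂ) (ψ : F' →+* ℂ), ∃ σ : ℂ ≃+* ℂ, (∀ x, σ (φ x) = φ x) ∧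
    ∀ y, σ (ψ y) = (starRingEnd ℂ) (ψ y)

/-- The field `K i` is independent of the other fields. -/
def IndepAt (K : I → Type) [∀ i, Field (K i)] (i : I) : Prop :=
  ∀ i', i ≠ i' → IndepPair (K i) (K i') ∧ IndepPair (K i') (K i)

theorem flip_of_indep {i i' : I} (h : IndepPair (K i) (K i')) (φ : K i →+* ℂ)
    (φ' : K i' →+* ℂ) : Flip (ℂ ≃+* ℂ) bar (inj1 i φ) (inj1 i' φ') := by
  obtain ⟨τ, h1, h2⟩ := h φ φ'
  have h3 : (τ : ℂ →+* ℂ).comp φ = φ := RingHom.ext h1
  have h4 : (τ : ℂ →+* ℂ).comp φ' = ComplexEmbedding.conjugate φ' := RingHom.ext h2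
  exact ⟨τ, Or.inl ⟨congrArg (fun χ => (⟨i, χ⟩ : Σ i, (K i →+* ℂ))) h3,
    congrArg (fun χ => (⟨i', χ⟩ : Σ i, (K i →+* ℂ))) h4⟩⟩

theorem link_both {i : I} (hind : IndepAt K i) {a b : Embs K} (h : Link (ℂ ≃+* ℂ) bar a b) :
    (∀ φ, a = inj1 i φ → ∃ φ', b = inj1 i φ' ∧ Link (ℂ ≃+* ℂ) bar (one1 φ) (one1 φ')) ∧
    (∀ φ, b = inj1 i φ → ∃ φ', a = inj1 i φ' ∧ Link (ℂ ≃+* ℂ) bar (one1 φ) (one1 φ')) := by
  unfold Link at h
  induction h with
  | rel a b hab =>
    constructor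
    · rintro φ rfl
      obtain ⟨i', φ'⟩ := b
      by_cases hii : i = i'
      · subst hii
        exact ⟨φ', rfl, Relation.EqvGen.rel _ _ fun h => hab (flip_one.2 h)⟩
      · exact absurd (flip_of_indep (hind i' hii).1 φ φ') hab
    · rintro φ rfl
      obtain ⟨i', φ'⟩ := a
      by_cases hii : i = i'
      · subst hii
        exact ⟨φ', rfl, link_symm (Relation.EqvGen.rel _ _ fun h => hab (flip_one.2 h))⟩
      · exact absurd (flip_of_indep (hind i' hii).2 φ' φ) hab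
  | refl a => exact ⟨fun φ h => ⟨φ, h, link_refl _⟩, fun φ h => ⟨φ, h, link_refl _⟩⟩
  | symm a b _ ih => exact ⟨ih.2, ih.1⟩
  | trans a b c _ _ ih1 ih2 =>
    constructor
    · intro φ hφ
      obtain ⟨φ', h1, h2⟩ := ih1.1 φ hφ
      obtain ⟨φ'', h3, h4⟩ := ih2.1 φ' h1
      exact ⟨φ'', h3, link_trans h2 h4⟩
    · intro φ hφ
      obtain ⟨φ', h1, h2⟩ := ih2.2 φ hφ
      obtain ⟨φ'', h3, h4⟩ := ih1.2 φ' h1
      exact ⟨φ'', h3, link_trans h2 h4⟩

theorem link_ind' {i : I} (hind : IndepAt K i) {φ : K i →+* ℂ} {z : Embs K}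
    (h : Link (ℂ ≃+* ℂ) bar (inj1 i φ) z) :
    ∃ χ : K i →+* ℂ, z = inj1 i χ ∧ Link (ℂ ≃+* ℂ) bar (one1 φ) (one1 χ) :=
  (link_both hind h).1 φ rfl

/-- The class in the family and the class for one field. -/
theorem card_class {i : I} (hind : IndepAt K i) (φ : K i →+* ℂ) :
    Nat.card {z : Embs K // Link (ℂ ≃+* ℂ) bar (inj1 i φ) z} =
      Nat.card {z : Embs (fun _ : Unit => K i) // Link (ℂ ≃+* ℂ) bar (one1 φ) z} := by
  symm
  refine Nat.card_congr (Equiv.ofBijective (fun z => ⟨inj1 i z.1.2, link_one z.2⟩) ⟨?_, ?_⟩)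
  · rintro ⟨⟨_, χ⟩, hχ⟩ ⟨⟨_, χ'⟩, hχ'⟩ h
    have h0 : inj1 i χ = inj1 i χ' := Subtype.ext_iff.1 h
    have h1 : χ = χ' := inj1_eq.1 h0
    subst h1
    rfl
  · rintro ⟨z, hz⟩
    obtain ⟨χ, rfl, h3⟩ := link_ind' hind hz
    exact ⟨⟨one1 χ, h3⟩, rfl⟩

theorem classPair_ind {i : I} (hind : IndepAt K i) {φ : K i →+* ℂ}
    (h : ClassPair (ℂ ≃+* ℂ) bar (one1 φ)) : ClassPair (ℂ ≃+* ℂ) bar (inj1 i φ) := by
  have h1 : ∀ (g : ℂ ≃+* ℂ) (χ : K i →+* ℂ), g • inj1 i χ = inj1 i ((g : ℂ →+* ℂ).comp χ) :=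
    fun _ _ => rfl
  have h2 : ∀ (g : ℂ ≃+* ℂ) (χ : K i →+* ℂ), g • one1 χ = one1 ((g : ℂ →+* ℂ).comp χ) :=
    fun _ _ => rfl
  have h3 : ∀ (χ : K i →+* ℂ), bar (inj1 i χ) = inj1 i (ComplexEmbedding.conjugate χ) :=
    fun _ => rfl
  have h4 : ∀ (χ : K i →+* ℂ), bar (one1 χ) = one1 (ComplexEmbedding.conjugate χ) :=
    fun _ => rfl
  intro x y x' y' hx hy hx' hy' n1 n2 n3 n4
  obtain ⟨x, rfl, kx⟩ := link_ind' hind hx
  obtain ⟨y, rfl, ky⟩ := link_ind' hind hy
  obtain ⟨x', rfl, kx'⟩ := link_ind' hind hx'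
  obtain ⟨y', rfl, ky'⟩ := link_ind' hind hy'
  have h5 := h (one1 x) (one1 y) (one1 x') (one1 y') kx ky kx' ky'
  simp only [h1, h2, h3, h4, Ne, inj1_eq, one1_eq] at h5 n1 n2 n3 n4 ⊢
  exact h5 n1 n2 n3 n4

theorem classTriple_ind {i : I} (hind : IndepAt K i) {φ : K i →+* ℂ}
    (h : ClassTriple (ℂ ≃+* ℂ) bar (one1 φ)) : ClassTriple (ℂ ≃+* ℂ) bar (inj1 i φ) := by
  have h1 : ∀ (g : ℂ ≃+* ℂ) (χ : K i →+* ℂ), g • inj1 i χ = inj1 i ((g : ℂ →+* ℂ).comp χ) :=
    fun _ _ => rfl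
  have h2 : ∀ (g : ℂ ≃+* ℂ) (χ : K i →+* ℂ), g • one1 χ = one1 ((g : ℂ →+* ℂ).comp χ) :=
    fun _ _ => rfl
  have h3 : ∀ (χ : K i →+* ℂ), bar (inj1 i χ) = inj1 i (ComplexEmbedding.conjugate χ) :=
    fun _ => rfl
  have h4 : ∀ (χ : K i →+* ℂ), bar (one1 χ) = one1 (ComplexEmbedding.conjugate χ) :=
    fun _ => rfl
  intro x y hx hy n1 n2
  choose x' hx' kx using fun k => link_ind' hind (hx k)
  choose y' hy' ky using fun k => link_ind' hind (hy k)
  have h5 := h (fun k => one1 (x' k)) (fun k => one1 (y' k)) kx ky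
  simp only [hx', hy', h1, h2, h3, h4, Ne, inj1_eq, one1_eq] at h5 n1 n2 ⊢
  exact h5 n1 n2

variable [∀ i, NumberField (K i)] [∀ i, IsCMField (K i)]

theorem translate_of_link {i : I} (hind : IndepAt K i) {φ : K i →+* ℂ} {z : Embs K}
    (h : Link (ℂ ≃+* ℂ) bar (inj1 i φ) z) : ∃ g : ℂ ≃+* ℂ, g • inj1 i φ = z := by
  obtain ⟨φ', rfl, _⟩ := link_ind' hind h
  obtain ⟨g, hg⟩ := embs_transitive (E := K i) (one1 φ) (one1 φ')
  refine ⟨g, ?_⟩
  have h1 : (g : ℂ →+* ℂ).comp φ = φ' := eq_of_heq (Sigma.mk.inj hg).2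
  exact congrArg (fun χ => (⟨i, χ⟩ : Σ i, (K i →+* ℂ))) h1

/-- The class of an embedding of one field with few pairs in each class is good. -/
theorem good_at {i : I} (hind : IndepAt K i) (h : FewPerClass (K i)) (φ : K i →+* ℂ) :
    Good (inj1 i φ) := by
  obtain ⟨htr, b, hb, hb'⟩ := good_of_fewPerClass h (one1 φ)
  refine ⟨fun z hz => translate_of_link hind hz, b, ?_, ?_⟩
  · rw [← card_class hind φ] at hb
    exact hb
  · rcases hb' with hb' | hb' | ⟨h1, hb'⟩
    · exact Or.inl hb'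
    · exact Or.inr (Or.inl hb')
    · refine Or.inr (Or.inr ⟨classPair_ind hind h1, ?_⟩)
      rcases hb' with hb' | hb' | hb'
      · exact Or.inl hb'
      · exact Or.inr (Or.inl hb')
      · exact Or.inr (Or.inr (classTriple_ind hind hb'))

theorem conj_ne_of_isCM {E : Type} [Field E] [NumberField E] [IsCMField E]
    {T : IntermediateField ℚ E} (hT : IsCM T) (χ : T →+* ℂ) :
    ComplexEmbedding.conjugate χ ≠ χ := by
  intro h
  obtain ⟨y, hy, hne⟩ := (nonReal_iff T).2 hT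
  obtain ⟨φ, hφ⟩ := exists_ext T χ
  apply hne
  apply φ.injective
  have h2 := RingHom.congr_fun h ⟨y, hy⟩
  have h3 : φ y = χ ⟨y, hy⟩ := RingHom.congr_fun hφ ⟨y, hy⟩
  have h4 : φ (IsCMField.complexConj E y) = starRingEnd ℂ (φ y) :=
    IsCMField.complexEmbedding_complexConj E φ y
  rw [h4, h3]
  exact h2

/-- CM subfields of independent fields are not isomorphic. -/
theorem not_isomorphic_sub {i i' : I} (hind : IndepPair (K i) (K i'))
    (T : IntermediateField ℚ (K i)) (T' : IntermediateField ℚ (K i')) (hT' : IsCM T') :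
    ¬ Isomorphic T T' := by
  rintro ⟨e⟩
  obtain ⟨φ'⟩ : Nonempty (K i' →+* ℂ) := inferInstance
  obtain ⟨φ, hφ⟩ := exists_ext T ((φ'.comp (algebraMap T' (K i'))).comp (e : T →+* T'))
  obtain ⟨τ, h1, h2⟩ := hind φ φ'
  refine conj_ne_of_isCM hT' (φ'.comp (algebraMap T' (K i'))) (RingHom.ext fun y => ?_)
  obtain ⟨x, rfl⟩ := e.surjective y
  have h3 : φ (algebraMap T (K i) x) = φ' (algebraMap T' (K i') (e x)) := RingHom.congr_fun hφ x
  have h4 := h1 (algebraMap T (K i) x)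
  have h5 := h2 (algebraMap T' (K i') (e x))
  rw [h3, h5] at h4
  exact h4

theorem isPrimitive_of_indep {A : I → CMPair} (hind : PairwiseIndep (fun i => (A i).E))
    (h : ∀ i, IsSimple (A i)) : IsPrimitive A := by
  rintro ⟨i, φ⟩ ⟨i', φ'⟩ hh
  by_cases hii : i = i'
  · subst hii
    have h1 := h i ⟨(), φ⟩ ⟨(), φ'⟩ hh
    have h2 : φ = φ' := eq_of_heq (Sigma.mk.inj h1).2
    rw [h2]
  · exfalso
    obtain ⟨τ, h1, h2⟩ := hind i i' hii φ φ'
    have h3 := hh τ
    have h4 := hh 1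
    have h5 : Short.act τ φ = φ := RingHom.ext h1
    have h6 : Short.act τ φ' = ComplexEmbedding.conjugate φ' := RingHom.ext h2
    have h7 : Short.act (1 : ℂ ≃+* ℂ) φ = φ := rfl
    have h8 : Short.act (1 : ℂ ≃+* ℂ) φ' = φ' := rfl
    have h9 := (A i').isCMType φ'
    change (Short.act τ φ ∈ (A i).Φ ↔ Short.act τ φ' ∈ (A i').Φ) at h3
    change (Short.act 1 φ ∈ (A i).Φ ↔ Short.act 1 φ' ∈ (A i').Φ) at h4
    rw [h5, h6] at h3
    rw [h7, h8] at h4
    tauto

end family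

/-- `E` is an abelian extension of `ℚ`, or it is a field with few pairs in each class of embeddings
(`FewPerClass`) whose CM subfields, besides `E`, are abelian extensions of `ℚ`. -/
def Admissible (E : Type) [Field E] [NumberField E] : Prop :=
  IsAbelian E ∨ (FewPerClass E ∧ ∀ T : IntermediateField ℚ E, IsCM T → T = ⊤ ∨ IsAbelian T)

/-- Any two of the fields are abelian extensions of `ℚ` or independent of each other. -/
def AbelianOrIndep {I : Type} (K : I → Type) [∀ i, Field (K i)] [∀ i, NumberField (K i)] : Prop :=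
  ∀ i i', i ≠ i' → (IsAbelian (K i) ∧ IsAbelian (K i')) ∨
    (IndepPair (K i) (K i') ∧ IndepPair (K i') (K i))

theorem abelianOrIndep_of_pairwise {I : Type} {K : I → Type} [∀ i, Field (K i)]
    [∀ i, NumberField (K i)] (h : PairwiseIndep K) : AbelianOrIndep K :=
  fun i i' hii => Or.inr ⟨h i i' hii, h i' i hii.symm⟩

section main

variable {ι : Type} [Fintype ι] {A : ι → CMPair}

theorem cond_of_admissible (hind : AbelianOrIndep (fun i => (A i).E))
    (h : ∀ i, Admissible (A i).E) : AbelianMildOrGood A ∧ SimpleSubfields A := by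
  classical
  refine ⟨fun T S hS hT _ => ?_, fun i T hT => ?_, fun i i' T T' hii hT hT' hiso => ?_⟩
  · by_cases hab : ∀ i ∈ S, IsAbelian (T i)
    · exact Or.inl hab
    · push Not at hab
      obtain ⟨i, hi, hTi⟩ := hab
      have hE : ¬ IsAbelian (A i).E := fun h1 => hTi (isAbelian_sub h1 (T i))
      have hT' : ∀ i ∈ S, ¬ IsTotallyReal (T i) := fun i hi => hT i hi
      obtain ⟨φ⟩ : Nonempty ((A i).E →+* ℂ) := inferInstance
      have hat : IndepAt (fun i => (A i).E) i := fun i' hii =>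
        (hind i i' hii).resolve_left fun h1 => hE h1.1
      exact Or.inr (Or.inr ⟨_, good_family (K := fun i => (A i).E) T S hT' i hi φ
        (good_at hat ((h i).resolve_left hE).1 φ)⟩)
  · rcases h i with h1 | ⟨_, h1⟩
    · exact Or.inl (isAbelian_sub h1 T)
    · rcases h1 T hT with h2 | h2
      · refine Or.inr (Or.inl fun ψ ψ' => ?_)
        rw [abs_excess_top _ h2, abs_excess_top _ h2]
      · exact Or.inl h2
  · rcases hind i i' hii with h1 | h1
    · exact isAbelian_sub h1.1 T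
    · exact absurd hiso (not_isomorphic_sub (K := fun i => (A i).E) h1.1 T T' hT')

theorem allHodge_of_admissible {P : PeriodSystem} (hB : P.Bost) (hD : P.Deligne)
    (hind : AbelianOrIndep (fun i => (A i).E)) (h : ∀ i, Admissible (A i).E) : AllHodge P A := by
  obtain ⟨h1, h2⟩ := cond_of_admissible hind h
  exact (allHodge_iff_good A hB hD h1).2 (twoTerm_of_simpleSubfields A hB hD h2)

end main

end

end Pool.Agent.V5helper98.GP
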