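import Mathlib
import Pool.Agent.V5helper98.GP.Ind
import Pool.Agent.TH170.CM.Family

/-!
# Simple abelian varieties of CM type of prime dimension
-/

set_option autoImplicit false
set_option linter.unusedSectionVars false
set_option linter.unusedVariables false

namespace Pool.Agent.V5helper98.GP

open NumberField Module Pool.Agent.W547.KB Pool.Agent.W537.PC Pool.Agent.W527
  Pool.Agent.H204R3.CM Pool.Agent.W527.Struct Pool.Agent.W527.Per Pool.Agent.TH127.SC
  Pool.Agent.TH127.PG Pool.Agent.H977R3.CM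

noncomputable section

/-- The degree of `E` is twice one or twice a prime number. -/
def PrimeDegree (E : Type) [Field E] [NumberField E] : Prop :=
  ∃ p : ℕ, finrank ℚ E = 2 * p ∧ (p = 1 ∨ p.Prime)

section

variable {E : Type} [Field E] [NumberField E]

theorem card_over (T : IntermediateField ℚ E) (ψ : T →+* ℂ) :
    {φ : E →+* ℂ | φ.comp (algebraMap T E) = ψ}.ncard = finrank T E := by
  classical
  let _ : Algebra T ℂ := ψ.toAlgebra
  have h := AlgHom.card T E ℂ
  rw [← Nat.card_coe_set_eq, ← h, ← Nat.card_eq_fintype_card]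
  let mk : {φ : E →+* ℂ | φ.comp (algebraMap T E) = ψ} → (E →ₐ[T] ℂ) := fun φ =>
    { toRingHom := φ.1
      commutes' := fun x => RingHom.congr_fun φ.2 x }
  exact Nat.card_congr ⟨mk, fun f => ⟨(f : E →+* ℂ), RingHom.ext fun x => f.commutes x⟩,
    fun φ => rfl, fun f => rfl⟩

theorem excess_def (Φ : Set (E →+* ℂ)) (T : IntermediateField ℚ E) (ψ : T →+* ℂ) :
    Short.excess Φ T ψ = (({φ : E →+* ℂ | φ ∈ Φ ∧ Short.Extends φ ψ}.ncard : ℕ) : ℤ) -
      (({φ : E →+* ℂ | φ ∉ Φ ∧ Short.Extends φ ψ}.ncard : ℕ) : ℤ) := rfl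

theorem excess_parts (Φ : Set (E →+* ℂ)) (T : IntermediateField ℚ E) (ψ : T →+* ℂ) :
    {φ : E →+* ℂ | φ ∈ Φ ∧ Short.Extends φ ψ}.ncard +
      {φ : E →+* ℂ | φ ∉ Φ ∧ Short.Extends φ ψ}.ncard = finrank T E := by
  classical
  rw [← card_over T ψ, ← Set.ncard_union_eq]
  · congr 1
    ext φ
    simp only [Set.mem_union, Set.mem_ofPred_eq]
    tauto
  · rw [Set.disjoint_left]
    rintro φ ⟨h1, _⟩ ⟨h2, _⟩
    exact h2 h1

theorem excess_odd {Φ : Set (E →+* ℂ)} {T : IntermediateField ℚ E} (h : Odd (finrank T E))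
    (ψ : T →+* ℂ) : Short.excess Φ T ψ ≠ 0 := by
  have h1 := excess_parts Φ T ψ
  rw [excess_def]
  intro h2
  obtain ⟨k, hk⟩ := h
  omega

theorem conj_conj {F : Type} [Field F] (χ : F →+* ℂ) :
    ComplexEmbedding.conjugate (ComplexEmbedding.conjugate χ) = χ :=
  RingHom.ext fun x => Complex.conj_conj _

theorem extends_conj {T : IntermediateField ℚ E} {φ : E →+* ℂ} {ψ : T →+* ℂ} :
    Short.Extends (ComplexEmbedding.conjugate φ) (ComplexEmbedding.conjugate ψ) ↔
      Short.Extends φ ψ := by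
  constructor
  · intro h
    refine RingHom.ext fun x => ?_
    have h1 := RingHom.congr_fun h x
    exact (starRingEnd ℂ).injective h1
  · intro h
    refine RingHom.ext fun x => ?_
    have h1 := RingHom.congr_fun h x
    exact congrArg (starRingEnd ℂ) h1

theorem excess_conj {Φ : Set (E →+* ℂ)} (hΦ : IsCMType Φ) (T : IntermediateField ℚ E)
    (ψ : T →+* ℂ) :
    Short.excess Φ T (ComplexEmbedding.conjugate ψ) = -Short.excess Φ T ψ := by
  have key : ∀ χ : T →+* ℂ,
      {φ : E →+* ℂ | φ ∈ Φ ∧ Short.Extends φ (ComplexEmbedding.conjugate χ)}.ncard =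
        {φ : E →+* ℂ | φ ∉ Φ ∧ Short.Extends φ χ}.ncard := by
    intro χ
    refine Set.ncard_congr (fun φ _ => ComplexEmbedding.conjugate φ) ?_ ?_ ?_
    · rintro φ ⟨h1, h2⟩
      refine ⟨(hΦ φ).1 h1, ?_⟩
      rw [← extends_conj, conj_conj]
      exact h2
    · intro φ φ' _ _ h
      rw [← conj_conj φ, h, conj_conj]
    · rintro φ ⟨h1, h2⟩
      refine ⟨ComplexEmbedding.conjugate φ, ⟨?_, extends_conj.2 h2⟩, conj_conj φ⟩
      by_contra h3
      exact h1 ((hΦ φ).2 h3)
  have h1 := key ψ
  have h2 := key (ComplexEmbedding.conjugate ψ)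
  rw [conj_conj] at h2
  unfold Short.excess
  rw [h1, h2]
  ring

variable [IsCMField E]

theorem even_finrank {T : IntermediateField ℚ E} (hT : IsCM T) : Even (finrank ℚ T) := by
  classical
  have h1 : ∑ χ : (T →+* ℂ), (1 : ZMod 2) = 0 := by
    refine Finset.sum_involution (fun χ _ => ComplexEmbedding.conjugate χ) ?_ ?_ ?_ ?_
    · intro χ _
      decide
    · intro χ _ _
      exact conj_ne_of_isCM hT χ
    · intro χ _
      exact Finset.mem_univ _
    · intro χ _
      exact conj_conj χ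
  rw [Finset.sum_const, Finset.card_univ, nsmul_eq_mul, mul_one, Embeddings.card] at h1
  exact (ZMod.natCast_eq_zero_iff_even).1 h1

theorem sub_cases (hE : PrimeDegree E) {T : IntermediateField ℚ E} (hT : IsCM T) :
    T = ⊤ ∨ finrank ℚ T = 2 := by
  obtain ⟨p, h1, h2⟩ := hE
  obtain ⟨k, hk⟩ := even_finrank hT
  have h3 : finrank ℚ T * finrank T E = 2 * p := by
    rw [finrank_mul_finrank, h1]
  have h4 : k * finrank T E = p := by
    rw [hk] at h3
    have h5 : 2 * (k * finrank T E) = 2 * p := by rw [← h3]; ring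
    omega
  rcases h2 with h2 | h2
  · rw [h2] at h4
    have h5 := Nat.eq_one_of_mul_eq_one_left h4
    left
    exact IntermediateField.finrank_eq_one_iff_eq_top.1 h5
  · rcases (Nat.dvd_prime h2).1 ⟨_, h4.symm⟩ with h5 | h5
    · right
      omega
    · left
      have h6 : finrank T E = 1 := by
        rw [h5] at h4
        exact Nat.eq_of_mul_eq_mul_left h2.pos (by rw [h4, mul_one])
      exact IntermediateField.finrank_eq_one_iff_eq_top.1 h6

theorem isAbelian_of_two {F : Type} [Field F] [NumberField F] (h : finrank ℚ F = 2) :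
    IsAbelian F := by
  have _ : Algebra.IsQuadraticExtension ℚ F := { finrank_eq_two' := h }
  refine ⟨inferInstance, fun a b => ?_⟩
  have h1 : IsCyclic (F ≃ₐ[ℚ] F) := Algebra.IsQuadraticExtension.isCyclic ℚ F
  exact (IsCyclic.commGroup (α := F ≃ₐ[ℚ] F)).mul_comm a b

theorem admissible_of_prime (hE : PrimeDegree E) : Admissible E := by
  refine Or.inr ⟨Or.inl ?_, fun T hT => ?_⟩
  · obtain ⟨p, h1, h2⟩ := hE
    refine ⟨p, h1, ?_⟩
    rcases h2 with h2 | h2
    · exact Or.inl h2
    · exact Or.inr (Or.inl h2)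
  · rcases sub_cases hE hT with h | h
    · exact Or.inl h
    · exact Or.inr (isAbelian_of_two h)

/-- The embeddings of a CM subfield of degree two. -/
theorem embedding_two {T : IntermediateField ℚ E} (hT : IsCM T) (h2 : finrank ℚ T = 2)
    (τ τ' : T →+* ℂ) : τ' = τ ∨ τ' = ComplexEmbedding.conjugate τ := by
  classical
  by_contra hne
  push Not at hne
  have h3 : Fintype.card (T →+* ℂ) = 2 := by rw [Embeddings.card, h2]
  have h4 : ({τ, ComplexEmbedding.conjugate τ, τ'} : Finset (T →+* ℂ)).card = 3 := by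
    rw [Finset.card_eq_three]
    exact ⟨τ, _, τ', (conj_ne_of_isCM hT τ).symm, hne.1.symm, hne.2.symm, rfl⟩
  have h5 := Finset.card_le_univ ({τ, ComplexEmbedding.conjugate τ, τ'} : Finset (T →+* ℂ))
  rw [h4, h3] at h5
  omega

end

/-- The embedding `φ` of `E` lies in the type iff the excess is positive. -/
theorem excess_top_pos {E : Type} [Field E] [NumberField E] (Φ : Set (E →+* ℂ))
    {T : IntermediateField ℚ E} (hT : T = ⊤) {φ : E →+* ℂ} {ψ : T →+* ℂ}
    (h : Short.Extends φ ψ) : 0 < Short.excess Φ T ψ ↔ φ ∈ Φ := by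
  have h1 := excess_parts Φ T ψ
  have h2 : finrank T E = 1 := IntermediateField.finrank_eq_one_iff_eq_top.2 hT
  rw [h2] at h1
  rw [excess_def]
  by_cases h3 : φ ∈ Φ
  · have h4 : 0 < {φ : E →+* ℂ | φ ∈ Φ ∧ Short.Extends φ ψ}.ncard :=
      (Set.ncard_pos (Set.toFinite _)).2 ⟨φ, h3, h⟩
    constructor
    · intro _
      exact h3
    · intro _
      omega
  · have h4 : 0 < {φ : E →+* ℂ | φ ∉ Φ ∧ Short.Extends φ ψ}.ncard :=
      (Set.ncard_pos (Set.toFinite _)).2 ⟨φ, h3, h⟩
    constructor
    · intro h5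
      exfalso
      omega
    · intro h5
      exact absurd h5 h3

/-- A CM field of degree four with an imaginary quadratic subfield has no primitive CM types. -/
theorem not_simple_of_quartic {B : CMPair} (hs : IsSimple B) {T : IntermediateField ℚ B.E}
    (hT : IsCM T) (h2 : finrank ℚ T = 2) (h2' : finrank T B.E = 2) : False := by
  classical
  obtain ⟨φ₀⟩ : Nonempty (B.E →+* ℂ) := inferInstance
  let ψ : T →+* ℂ := φ₀.comp (algebraMap T B.E)
  have h3 := card_over T ψ
  rw [h2', Set.ncard_eq_two] at h3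
  obtain ⟨x, y, hxy, hset⟩ := h3
  have hx : x.comp (algebraMap T B.E) = ψ := by
    have h4 : x ∈ {φ : B.E →+* ℂ | φ.comp (algebraMap T B.E) = ψ} := by
      rw [hset]
      exact Set.mem_insert _ _
    exact h4
  have hy : y.comp (algebraMap T B.E) = ψ := by
    have h4 : y ∈ {φ : B.E →+* ℂ | φ.comp (algebraMap T B.E) = ψ} := by
      rw [hset]
      exact Set.mem_insert_of_mem _ rfl
    exact h4
  have hmem : ∀ z : B.E →+* ℂ, z.comp (algebraMap T B.E) = ψ → z = x ∨ z = y := by
    intro z hz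
    have h4 : z ∈ {φ : B.E →+* ℂ | φ.comp (algebraMap T B.E) = ψ} := hz
    rw [hset] at h4
    exact h4
  have hcj : ∀ z : B.E →+* ℂ, z ∈ B.Φ ↔ ComplexEmbedding.conjugate z ∉ B.Φ := B.isCMType
  have key : ∀ τ : ℂ ≃+* ℂ, (((τ : ℂ →+* ℂ).comp x ∈ B.Φ ↔ (τ : ℂ →+* ℂ).comp y ∈ B.Φ) ↔
      (x ∈ B.Φ ↔ y ∈ B.Φ)) := by
    intro τ
    have hinj : (τ : ℂ →+* ℂ).comp x ≠ (τ : ℂ →+* ℂ).comp y := by
      intro h4
      exact hxy (RingHom.ext fun a => τ.injective (RingHom.congr_fun h4 a))
    have hτx : ((τ : ℂ →+* ℂ).comp x).comp (algebraMap T B.E) = (τ : ℂ →+* ℂ).comp ψ := by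
      rw [RingHom.comp_assoc, hx]
    have hτy : ((τ : ℂ →+* ℂ).comp y).comp (algebraMap T B.E) = (τ : ℂ →+* ℂ).comp ψ := by
      rw [RingHom.comp_assoc, hy]
    rcases embedding_two hT h2 ψ ((τ : ℂ →+* ℂ).comp ψ) with h4 | h4
    · rw [h4] at hτx hτy
      rcases hmem _ hτx with h5 | h5 <;> rcases hmem _ hτy with h6 | h6
      · exact absurd (h5.trans h6.symm) hinj
      · rw [h5, h6]
      · rw [h5, h6]
        tauto
      · exact absurd (h5.trans h6.symm) hinj
    · rw [h4] at hτx hτy
      have hcx : (ComplexEmbedding.conjugate ((τ : ℂ →+* ℂ).comp x)).comp (algebraMap T B.E) = ψ := by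
        have h7 := extends_conj.2 hτx
        rw [conj_conj] at h7
        exact h7
      have hcy : (ComplexEmbedding.conjugate ((τ : ℂ →+* ℂ).comp y)).comp (algebraMap T B.E) = ψ := by
        have h7 := extends_conj.2 hτy
        rw [conj_conj] at h7
        exact h7
      have hinj' : ComplexEmbedding.conjugate ((τ : ℂ →+* ℂ).comp x) ≠
          ComplexEmbedding.conjugate ((τ : ℂ →+* ℂ).comp y) := by
        intro h8
        apply hinj
        rw [← conj_conj ((τ : ℂ →+* ℂ).comp x), h8, conj_conj]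
      have e1 := hcj ((τ : ℂ →+* ℂ).comp x)
      have e2 := hcj ((τ : ℂ →+* ℂ).comp y)
      rcases hmem _ hcx with h5 | h5 <;> rcases hmem _ hcy with h6 | h6
      · exact absurd (h5.trans h6.symm) hinj'
      · rw [h5] at e1
        rw [h6] at e2
        tauto
      · rw [h5] at e1
        rw [h6] at e2
        tauto
      · exact absurd (h5.trans h6.symm) hinj'
  by_cases h4 : (x ∈ B.Φ ↔ y ∈ B.Φ)
  · have h5 := hs ⟨(), x⟩ ⟨(), y⟩ fun τ => (key τ).2 h4
    exact hxy (eq_of_heq (Sigma.mk.inj h5).2)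
  · have h5 := hs ⟨(), x⟩ ⟨(), ComplexEmbedding.conjugate y⟩ fun τ => by
      have h6 := key τ
      have h7 : (τ : ℂ →+* ℂ).comp (ComplexEmbedding.conjugate y) =
          ComplexEmbedding.conjugate ((τ : ℂ →+* ℂ).comp y) := by
        ext a
        have e1 := IsCMField.complexEmbedding_complexConj B.E y a
        have e2 := IsCMField.complexEmbedding_complexConj B.E ((τ : ℂ →+* ℂ).comp y) a
        change τ (starRingEnd ℂ (y a)) = starRingEnd ℂ (τ (y a))
        rw [← e1]
        exact e2
      have h8 := hcj ((τ : ℂ →+* ℂ).comp y)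
      change ((τ : ℂ →+* ℂ).comp x ∈ B.Φ ↔ (τ : ℂ →+* ℂ).comp (ComplexEmbedding.conjugate y) ∈ B.Φ)
      rw [h7]
      tauto
    have h6 : x = ComplexEmbedding.conjugate y := eq_of_heq (Sigma.mk.inj h5).2
    have h7 : (ComplexEmbedding.conjugate y).comp (algebraMap T B.E) =
        ComplexEmbedding.conjugate ψ := extends_conj.2 hy
    rw [← h6, hx] at h7
    exact conj_ne_of_isCM hT ψ h7.symm

theorem separated_of_prime {B : CMPair} (hs : IsSimple B) (hE : PrimeDegree B.E) :
    SeparatedTypes (fun _ : Unit => B) := by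
  intro T i i' ψ ψ' hi hi' hprop
  obtain ⟨m, n, hm, hn, hrel⟩ := hprop
  have hT : IsCM (T i) := hi
  change Short.Same (X := fun i => Short.Emb (T i)) ψ ψ'
  have hsuff : ψ = ψ' := by
    rcases sub_cases hE hT with h1 | h1
    · have e1 := abs_excess_top B.Φ h1 ψ
      have e2 := abs_excess_top B.Φ h1 ψ'
      have hmn : m = n := by
        have h2 := hrel 1
        have h3 : |m * Short.excess B.Φ (T i) ψ| = |n * Short.excess B.Φ (T i') ψ'| :=
          congrArg abs h2
        rw [abs_mul, abs_mul, abs_of_pos hm, abs_of_pos hn] at h3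
        have e2' : |Short.excess B.Φ (T i') ψ'| = 1 := e2
        rw [e1, e2', mul_one, mul_one] at h3
        exact h3
      subst hmn
      obtain ⟨φ, hφ⟩ := exists_ext (T i) ψ
      obtain ⟨φ', hφ'⟩ := exists_ext (T i') ψ'
      have h4 := hs ⟨(), φ⟩ ⟨(), φ'⟩ fun τ => by
        have h5 := hrel τ
        have h6 : Short.excess B.Φ (T i) (Short.act τ ψ) =
            Short.excess B.Φ (T i') (Short.act τ ψ') := by
          exact mul_left_cancel₀ hm.ne' h5
        have h7 : Short.Extends (Short.act τ φ) (Short.act τ ψ) := by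
          change ((τ : ℂ →+* ℂ).comp φ).comp (algebraMap (T i) B.E) = (τ : ℂ →+* ℂ).comp ψ
          rw [RingHom.comp_assoc, hφ]
        have h8 : Short.Extends (Short.act τ φ') (Short.act τ ψ') := by
          change ((τ : ℂ →+* ℂ).comp φ').comp (algebraMap (T i') B.E) = (τ : ℂ →+* ℂ).comp ψ'
          rw [RingHom.comp_assoc, hφ']
        have h9 := excess_top_pos B.Φ h1 h7
        have h10 := excess_top_pos B.Φ (T := T i') h1 h8
        rw [← h6] at h10
        exact h9.symm.trans h10
      have h5 : φ = φ' := eq_of_heq (Sigma.mk.inj h4).2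
      rw [← hφ, ← hφ', h5]
    · rcases embedding_two hT h1 ψ ψ' with h2 | h2
      · exact h2.symm
      · exfalso
        have h3 := hrel 1
        have h4 : m * Short.excess B.Φ (T i) ψ = n * Short.excess B.Φ (T i) ψ' := h3
        rw [h2, excess_conj B.isCMType] at h4
        have h5 : (m + n) * Short.excess B.Φ (T i) ψ = 0 := by linarith
        have h6 : Short.excess B.Φ (T i) ψ = 0 := by
          rcases mul_eq_zero.1 h5 with h7 | h7
          · omega
          · exact h7
        obtain ⟨p, h7, h8⟩ := hE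
        have h9 : finrank ℚ (T i) * finrank (T i) B.E = 2 * p := by
          rw [finrank_mul_finrank, h7]
        rw [h1] at h9
        have h10 : finrank (T i) B.E = p := by omega
        rcases h8 with h8 | h8
        · exact excess_odd (by rw [h10, h8]; exact odd_one) ψ h6
        · rcases h8.eq_two_or_odd' with h11 | h11
          · exact not_simple_of_quartic hs hT h1 (by rw [h10, h11])
          · exact excess_odd (by rw [h10]; exact h11) ψ h6
  rw [hsuff]
  rfl

/-- Simple abelian varieties of CM type of prime dimension have nondegenerate CM types. -/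
theorem not_degenerate_of_prime {B : CMPair} (hs : IsSimple B) (hE : PrimeDegree B.E) :
    ¬ Pool.Agent.TH170.CM.Degenerate B.Φ := by
  classical
  obtain ⟨L, _, _, j, h⟩ := exists_galois (fun _ : Unit => B.E)
  have hsd : SmallDegree B.E := by
    obtain ⟨p, h1, h2⟩ := hE
    refine ⟨p, h1, ?_⟩
    rcases h2 with h2 | h2
    · exact Or.inl h2
    · exact Or.inr (Or.inl h2)
  have hfree := free_types (A := fun _ : Unit => B) j h
    (mildOrGoodTypes_of (mildOrGood_of_good fun x => (good_of_smallDegree hsd x).1))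
    (separated_of_prime hs hE)
  rintro ⟨b, hb0, hb1, hb2⟩
  apply hb0
  have hbij : Function.Bijective (fun φ : B.E →+* L => j.comp φ) :=
    ⟨fun φ φ' hφ => RingHom.ext fun x => j.injective (RingHom.congr_fun hφ x), h ()⟩
  let eq : (B.E →+* L) ≃ (B.E →+* ℂ) := Equiv.ofBijective _ hbij
  have hc := hfree (fun _ φ => b (j.comp φ)) (fun _ φ => by rw [comp_cbar, hb1]) fun g => by
    obtain ⟨τ, hτ⟩ := exists_lift' j g
    have h1 := hb2 τ
    rw [Fintype.sum_unique]
    rw [← h1]
    refine Fintype.sum_equiv eq _ _ fun φ => ?_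
    change b (j.comp φ) * wt (fun _ : Unit => B.Φ) j () (g • φ) =
      b (j.comp φ) * Pool.Agent.TH170.CM.sgn B.Φ ((τ : ℂ →+* ℂ).comp (j.comp φ))
    rw [lifts_comp j hτ]
    rfl
  funext φ
  obtain ⟨x, rfl⟩ := h () φ
  exact hc () x

end

end Pool.Agent.V5helper98.GP
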