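import Mathlib
import Pool.Agent.V5helper98.GP.Prime
import Pool.Agent.TH170.CM.Field
import Pool.Agent.Q29.EP.Proportion
import Pool.Agent.Q29.DP.Fam

/-!
# The period conjecture for cycles for most families of CM types
-/

set_option autoImplicit false
set_option linter.unusedSectionVars false
set_option linter.unusedVariables false

namespace Pool.Agent.V5helper98.GP

open NumberField Module Pool.Agent.W547.KB Pool.Agent.W537.PC Pool.Agent.W527
  Pool.Agent.H204R3.CM Pool.Agent.W527.Struct Pool.Agent.W527.Per Pool.Agent.TH127.SC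
  Pool.Agent.TH127.PG Pool.Agent.H977R3.CM

noncomputable section

/-- The CM type `Φ` is nondegenerate. -/
def Nondegenerate {E : Type} [Field E] [NumberField E] (Φ : Set (E →+* ℂ)) : Prop :=
  ¬ Pool.Agent.TH170.CM.Degenerate Φ

/-- All de Rham-Betti classes on all products of copies of the abelian varieties with the CM types
`Φ i` of the fields `K i` are linear combinations of products of divisor classes. -/
def Holds (P : PeriodSystem) {I : Type} (K : I → Type) [∀ i, Field (K i)]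
    [∀ i, NumberField (K i)] [∀ i, IsCMField (K i)] (Φ : ∀ i, Set (K i →+* ℂ)) : Prop :=
  ∀ hΦ : ∀ i, IsCMType (Φ i), AllDRBDivisorial (fun i => (⟨K i, Φ i, hΦ i⟩ : CMPair)) P

section

variable {ι : Type} [Fintype ι] {A : ι → CMPair} {P : PeriodSystem}

theorem divisorial_of_nondegenerate (hind : PairwiseIndep (fun i => (A i).E))
    (h : ∀ i, Nondegenerate (A i).Φ) : Divisorial A := by
  intro J _ t m f hf
  exact Pool.Agent.TH170.CM.hodge_of_not_degenerate (fun i => (A i).isCMType) hind h t m f hf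

theorem drb_of_nondegenerate (hB : P.Bost) (hD : P.Deligne)
    (hind : PairwiseIndep (fun i => (A i).E)) (hadm : ∀ i, Admissible (A i).E)
    (h : ∀ i, Nondegenerate (A i).Φ) : AllDRBDivisorial A P :=
  (allDRBDivisorial_iff hD).2
    ⟨allHodge_of_admissible hB hD (abelianOrIndep_of_pairwise hind) hadm,
      divisorial_of_nondegenerate hind h⟩

theorem nondegenerate_of_nondeg {B : CMPair} {L : Type} [Field L] [NumberField L] [IsGalois ℚ L]
    (j : L →+* ℂ) (h : ∀ ψ : B.E →+* ℂ, ∃ φ : B.E →+* L, j.comp φ = ψ)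
    (hfree : Nondeg (fun _ : Unit => B.Φ) j) : Nondegenerate B.Φ := by
  classical
  rintro ⟨b, hb0, hb1, hb2⟩
  apply hb0
  have hbij : Function.Bijective (fun φ : B.E →+* L => j.comp φ) :=
    ⟨fun φ φ' hφ => RingHom.ext fun x => j.injective (RingHom.congr_fun hφ x), h⟩
  let eq : (B.E →+* L) ≃ (B.E →+* ℂ) := Equiv.ofBijective _ hbij
  have hc := hfree (fun _ φ => b (j.comp φ)) (fun _ φ => by rw [comp_cbar, hb1]) fun g => by
    obtain ⟨τ, hτ⟩ := exists_lift' j g
    have h1 := hb2 τ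
    rw [Fintype.sum_unique]
    rw [← h1]
    refine Fintype.sum_equiv eq _ _ fun φ => ?_
    change b (j.comp φ) * wt (fun _ : Unit => B.Φ) j () (g • φ) =
      b (j.comp φ) * Pool.Agent.TH170.CM.sgn B.Φ ((τ : ℂ →+* ℂ).comp (j.comp φ))
    rw [lifts_comp j hτ]
    rfl
  funext φ
  obtain ⟨x, rfl⟩ := h φ
  exact hc () x

theorem nondegenerate_of_divisorial (h : Divisorial A) (i : ι) (hs : IsSimple (A i)) :
    Nondegenerate (A i).Φ := by
  obtain ⟨L, _, _, j, hj⟩ := exists_galois (fun _ : Unit => (A i).E)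
  refine nondegenerate_of_nondeg j (hj ()) ?_
  refine nondeg_of_all (Φ := fun _ : Unit => (A i).Φ) (fun _ => (A i).isCMType) j hj
    (prim_of_primitive j (short_primitive hs)) fun J _ t m f hf => ?_
  exact h J (fun _ => i) m f hf

end

section

open Pool.Agent.Q29.EP Pool.Agent.Q29.DP Pool.Agent.Q29.OS Finset

variable {P : PeriodSystem} {I : Type} [Fintype I] {K : I → Type} [∀ i, Field (K i)]
  [∀ i, NumberField (K i)] [∀ i, IsCMField (K i)]

theorem holds_of_nondegenerate (hB : P.Bost) (hD : P.Deligne) (hind : PairwiseIndep K)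
    (hadm : ∀ i, V5helper98.GP.Admissible (K i)) {Φ : ∀ i, Set (K i →+* ℂ)}
    (h : ∀ i, Nondegenerate (Φ i)) : Holds P K Φ := fun hΦ =>
  drb_of_nondegenerate (A := fun i => (⟨K i, Φ i, hΦ i⟩ : CMPair)) hB hD hind hadm h

theorem nondegenerate_of_noRelations {E : Type} [Field E] [NumberField E]
    {Φ : Set (E →+* ℂ)} (h : NoRelations (fun _ => 1) Φ) : Nondegenerate Φ := by
  rintro ⟨b, hb0, hb1, hb2⟩
  exact hb0 (h b hb1 fun σ => by simpa only [mul_one] using hb2 σ)

theorem share_prime (hB : P.Bost) (hD : P.Deligne) (hind : PairwiseIndep K)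
    (hadm : ∀ i, V5helper98.GP.Admissible (K i)) {r k : I → ℕ} (hr : ∀ i, (r i).Prime)
    (hdeg : ∀ i, finrank ℚ (K i) = 2 * r i ^ k i) (h8 : ∀ i, r i = 2 → 8 ≤ r i ^ k i) :
    (∏ i, (1 - 1 / (r i : ℝ))) * 2 ^ (∑ i, r i ^ k i) ≤
      (({Φ : ∀ i, Set (K i →+* ℂ) | (∀ i, IsCMType (Φ i)) ∧ Holds P K Φ}.ncard : ℕ) : ℝ) := by
  refine le_trans ?_ (Nat.cast_le.2 (prod_le_fam (M := fun _ _ => 1) fun Φ hΦ hno =>
    holds_of_nondegenerate hB hD hind hadm fun i => nondegenerate_of_noRelations (hno i)))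
  rw [Nat.cast_prod]
  calc (∏ i, (1 - 1 / (r i : ℝ))) * 2 ^ (∑ i, r i ^ k i) =
      ∏ i, (1 - 1 / (r i : ℝ)) * 2 ^ (r i ^ k i) := by
        rw [prod_mul_distrib, prod_pow_eq_pow_sum]
    _ ≤ _ := by
      refine prod_le_prod (fun i _ => ?_) fun i _ => proportion (hr i) (hdeg i) (h8 i)
      have h1 : (1 : ℝ) ≤ r i := by exact_mod_cast (hr i).one_lt.le
      have h2 : 1 / (r i : ℝ) ≤ 1 := by
        rw [div_le_one (by linarith)]
        exact h1
      have h3 : (0 : ℝ) ≤ 1 - 1 / (r i : ℝ) := by linarith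
      positivity

/-- The bound for the share of the degenerate types of an abelian field. -/
def rho (E : Type) [Field E] [NumberField E] : ℝ :=
  ∑ᶠ T ∈ Pool.Agent.TH170.CM.ImagCyclic E,
    Pool.Agent.TH170.CM.weight (finrank ℚ T) (finrank T E)

theorem exceptions_abelian (hB : P.Bost) (hD : P.Deligne) (hind : PairwiseIndep K)
    (hab : ∀ i, IsAbelian (K i)) {g : I → ℕ} (hg : ∀ i, finrank ℚ (K i) = 2 * g i) :
    (({Φ : ∀ i, Set (K i →+* ℂ) | (∀ i, IsCMType (Φ i)) ∧ ¬ Holds P K Φ}.ncard : ℕ) : ℝ) ≤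
      2 ^ (∑ i, g i) * ∑ i, rho (K i) := by
  classical
  let S : I → ∀ k, Set (Set (K k →+* ℂ)) := fun i =>
    Function.update (fun k => {Φ : Set (K k →+* ℂ) | IsCMType Φ}) i
      (Pool.Agent.TH170.CM.degenerateTypes (K i))
  have hSself : ∀ i, S i i = Pool.Agent.TH170.CM.degenerateTypes (K i) := fun i =>
    Function.update_self _ _ _
  have hSne : ∀ i k, k ≠ i → S i k = {Φ : Set (K k →+* ℂ) | IsCMType Φ} := fun i k h =>
    Function.update_of_ne h _ _
  have hsub : {Φ : ∀ i, Set (K i →+* ℂ) | (∀ i, IsCMType (Φ i)) ∧ ¬ Holds P K Φ} ⊆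
      ⋃ i, {Φ : ∀ i, Set (K i →+* ℂ) | ∀ k, Φ k ∈ S i k} := by
    rintro Φ ⟨h1, h2⟩
    have h3 : ∃ i, ¬ Nondegenerate (Φ i) := by
      by_contra h4
      push Not at h4
      exact h2 (holds_of_nondegenerate hB hD hind (fun i => Or.inl (hab i)) h4)
    obtain ⟨i, hi⟩ := h3
    refine Set.mem_iUnion.2 ⟨i, fun k => ?_⟩
    by_cases hk : k = i
    · subst hk
      rw [hSself]
      exact ⟨h1 k, not_not.1 hi⟩
    · rw [hSne i k hk]
      exact h1 k
  have hcard : ∀ i, (({Φ : ∀ i, Set (K i →+* ℂ) | ∀ k, Φ k ∈ S i k}.ncard : ℕ) : ℝ) ≤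
      2 ^ (∑ i, g i) * rho (K i) := by
    intro i
    rw [ncard_fam, Nat.cast_prod]
    have h1 : ∀ k, (((S i k).ncard : ℕ) : ℝ) ≤ 2 ^ (g k) * (if k = i then rho (K i) else 1) := by
      intro k
      by_cases hk : k = i
      · subst hk
        rw [if_pos rfl, hSself]
        have _ : IsGalois ℚ (K k) := (hab k).1
        have _ : IsAbelianGalois ℚ (K k) := { is_comm := ⟨(hab k).2⟩ }
        have h2 := Pool.Agent.TH170.CM.ncard_degenerate (K k)
        rw [hg k, Nat.mul_div_cancel_left _ (by norm_num)] at h2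
        exact h2
      · rw [if_neg hk, mul_one, hSne i k hk, ncard_cmTypes (K k) (hg k)]
        push_cast
        exact le_rfl
    refine (prod_le_prod (fun k _ => by positivity) fun k _ => h1 k).trans (le_of_eq ?_)
    rw [prod_mul_distrib, prod_pow_eq_pow_sum, prod_ite_eq' univ i, if_pos (mem_univ _)]
  calc (({Φ : ∀ i, Set (K i →+* ℂ) | (∀ i, IsCMType (Φ i)) ∧ ¬ Holds P K Φ}.ncard : ℕ) : ℝ) ≤
      ((∑ i, {Φ : ∀ i, Set (K i →+* ℂ) | ∀ k, Φ k ∈ S i k}.ncard : ℕ) : ℝ) := by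
        refine Nat.cast_le.2 ((Set.ncard_le_ncard hsub (Set.toFinite _)).trans ?_)
        exact Set.ncard_iUnion_le_of_fintype _
    _ ≤ _ := by
      rw [Nat.cast_sum, mul_sum]
      exact sum_le_sum fun i _ => hcard i

end

end

end Pool.Agent.V5helper98.GP
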